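import Pool.Agent.Helper17.RZ.St1

/-!
# Project RZ, module A8: purely transcendental extensions
-/

set_option autoImplicit false

open Polynomial

namespace Pool.Agent.Helper45.RZ

open Pool.Agent.Helper17.RZ

universe u

/-- the inclusion of `D[X]` in the rational functions over the fraction field of `D` -/
noncomputable def incl (D : Type u) [CommRing D] [IsDomain D] :
    D[X] →+* RatFunc (FractionRing D) :=
  (algebraMap (FractionRing D)[X] (RatFunc (FractionRing D))).comp
    (mapRingHom (algebraMap D (FractionRing D)))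

theorem incl_injective (D : Type u) [CommRing D] [IsDomain D] : Function.Injective (incl D) :=
  (IsFractionRing.injective (FractionRing D)[X] _).comp
    (Polynomial.map_injective _ (IsFractionRing.injective D _))

theorem incl_surj (D : Type u) [CommRing D] [IsDomain D] (z : RatFunc (FractionRing D)) :
    ∃ x y : D[X], z = incl D x / incl D y := by
  let E := FractionRing D
  have hinj : ∀ p : E[X], algebraMap E[X] (RatFunc E) p = 0 ↔ p = 0 := fun p =>
    map_eq_zero_iff _ (IsFractionRing.injective E[X] (RatFunc E))
  obtain ⟨b, hb, hb'⟩ := IsLocalization.integerNormalization_spec (nonZeroDivisors D) z.num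
  obtain ⟨c, hc, hc'⟩ := IsLocalization.integerNormalization_spec (nonZeroDivisors D) z.denom
  set P := IsLocalization.integerNormalization (nonZeroDivisors D) z.num
  set Q := IsLocalization.integerNormalization (nonZeroDivisors D) z.denom
  have hb0 : algebraMap D E b ≠ 0 := fun h => nonZeroDivisors.ne_zero hb
    ((IsFractionRing.injective D E) (by rw [h, map_zero]))
  have hc0 : algebraMap D E c ≠ 0 := fun h => nonZeroDivisors.ne_zero hc
    ((IsFractionRing.injective D E) (by rw [h, map_zero]))
  have hd0 : algebraMap E[X] (RatFunc E) z.denom ≠ 0 := by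
    rw [Ne, hinj]
    exact RatFunc.denom_ne_zero z
  have e1 : incl D P = algebraMap E[X] (RatFunc E) (C (algebraMap D E b)) *
      algebraMap E[X] (RatFunc E) z.num := by
    show algebraMap E[X] (RatFunc E) (P.map (algebraMap D E)) = _
    rw [hb', ← map_mul, ← smul_eq_C_mul, algebraMap_smul]
  have e2 : incl D Q = algebraMap E[X] (RatFunc E) (C (algebraMap D E c)) *
      algebraMap E[X] (RatFunc E) z.denom := by
    show algebraMap E[X] (RatFunc E) (Q.map (algebraMap D E)) = _
    rw [hc', ← map_mul, ← smul_eq_C_mul, algebraMap_smul]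
  have eC : ∀ a : D, incl D (C a) = algebraMap E[X] (RatFunc E) (C (algebraMap D E a)) := by
    intro a
    show algebraMap E[X] (RatFunc E) ((C a).map (algebraMap D E)) = _
    rw [Polynomial.map_C]
  have hCb : algebraMap E[X] (RatFunc E) (C (algebraMap D E b)) ≠ 0 := by
    rw [Ne, hinj, C_eq_zero]; exact hb0
  have hCc : algebraMap E[X] (RatFunc E) (C (algebraMap D E c)) ≠ 0 := by
    rw [Ne, hinj, C_eq_zero]; exact hc0
  refine ⟨C c * P, C b * Q, ?_⟩
  rw [map_mul, map_mul, e1, e2, eC, eC]
  have e3 : algebraMap E[X] (RatFunc E) z.num / algebraMap E[X] (RatFunc E) z.denom = z :=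
    RatFunc.num_div_denom z
  conv_lhs => rw [← e3]
  field_simp

noncomputable def fracEquiv (D : Type u) [CommRing D] [IsDomain D] :
    FractionRing D[X] ≃+* RatFunc (FractionRing D) := by
  letI : Algebra D[X] (RatFunc (FractionRing D)) := (incl D).toAlgebra
  haveI : FaithfulSMul D[X] (RatFunc (FractionRing D)) :=
    (faithfulSMul_iff_algebraMap_injective _ _).2 (incl_injective D)
  haveI : IsFractionRing D[X] (RatFunc (FractionRing D)) :=
    IsFractionRing.of_field _ _ (incl_surj D)
  exact IsFractionRing.ringEquivOfRingEquiv (A := D[X]) (B := D[X]) (RingEquiv.refl D[X])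

theorem pp_algClosed (k : Type u) [Field k] [IsAlgClosed k] : PP k := by
  intro a b c ha hb hc _
  obtain ⟨z, hz⟩ := IsAlgClosed.exists_pow_nat_eq (-b / a) (n := 2) (by norm_num)
  refine ⟨![z, 1, 0], fun h => one_ne_zero (congrFun h 1), ?_⟩
  simp only [dg, Matrix.cons_val_zero, Matrix.cons_val_one, Matrix.cons_val]
  rw [hz]
  field_simp
  ring

/-- MODULE A8 -/
theorem ppRat (he : PPEquiv.{u}) (hs : StepPP.{u}) : PPRat.{u} := by
  intro k _ _ h2 n
  induction n with
  | zero =>
    have e1 : MvPolynomial (Fin 0) k ≃+* k := (MvPolynomial.isEmptyAlgEquiv k (Fin 0)).toRingEquiv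
    have e2 : k ≃+* FractionRing (MvPolynomial (Fin 0) k) :=
      IsFractionRing.ringEquivOfRingEquiv (A := k) (B := MvPolynomial (Fin 0) k) (K := k)
        (L := FractionRing (MvPolynomial (Fin 0) k)) e1.symm
    exact he _ _ e2 (pp_algClosed k)
  | succ n ih =>
    have h3 := hs k h2 (FractionRing (MvPolynomial (Fin n) k)) ih
    have e1 : MvPolynomial (Fin (n + 1)) k ≃+* (MvPolynomial (Fin n) k)[X] :=
      (MvPolynomial.finSuccEquiv k n).toRingEquiv
    have e2 : FractionRing (MvPolynomial (Fin (n + 1)) k) ≃+*
        FractionRing (MvPolynomial (Fin n) k)[X] := IsFractionRing.ringEquivOfRingEquiv e1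
    exact he _ _ (e2.trans (fracEquiv _)).symm h3

end Pool.Agent.Helper45.RZ
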